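import Pool.Agent.Lib52.SS.Glob3

/-!
# The growth constant of zero-free functions in the unit disc with `f' ≠ 1` is less than two
-/

set_option autoImplicit false
open Real Filter Topology

namespace Pool.Agent.Results.MP_a3030a_an.GrowthConstantBelowTwo

/-- number of poles of `f` in `|z| ≤ t`, with multiplicity -/
noncomputable def poleCount (f : ℂ → ℂ) (t : ℝ) : ℝ :=
  ∑ᶠ z ∈ Metric.closedBall (0:ℂ) t, ((max 0 (-(meromorphicOrderAt f z).untop₀) : ℤ) : ℝ)

/-- the proximity function `m(r, f)` -/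
noncomputable def proximity (f : ℂ → ℂ) (r : ℝ) : ℝ :=
  (2 * π)⁻¹ * ∫ θ in (0:ℝ)..2 * π, Real.posLog ‖f (circleMap 0 r θ)‖

/-- the integrated counting function `N(r, f)` of the poles -/
noncomputable def counting (f : ℂ → ℂ) (r : ℝ) : ℝ :=
  (∫ t in (0:ℝ)..r, (poleCount f t - poleCount f 0) / t) + poleCount f 0 * Real.log r

/-- the Nevanlinna characteristic `T(r, f) = m(r, f) + N(r, f)` -/
noncomputable def characteristic (f : ℂ → ℂ) (r : ℝ) : ℝ := proximity f r + counting f r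

/-- `α(f) = limsup_{r → 1} T(r, f) / (-log (1 - r))` -/
noncomputable def alpha (f : ℂ → ℂ) : EReal :=
  limsup (fun r : ℝ => ((characteristic f r / (-Real.log (1 - r)) : ℝ) : EReal)) (𝓝[<] (1:ℝ))

theorem poleCount_eq {f : ℂ → ℂ} (hf : DifferentiableOn ℂ f (Metric.ball 0 1)) {t : ℝ} (ht : t < 1) :
    poleCount f t = 0 := by
  have key : ∀ z ∈ Metric.closedBall (0:ℂ) t,
      ((max 0 (-(meromorphicOrderAt f z).untop₀) : ℤ) : ℝ) = 0 := by
    intro z hz
    have hz1 : z ∈ Metric.ball (0:ℂ) 1 := by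
      rw [Metric.mem_ball]
      rw [Metric.mem_closedBall] at hz
      linarith
    have han : AnalyticAt ℂ f z := hf.analyticAt (Metric.isOpen_ball.mem_nhds hz1)
    have h0 : 0 ≤ meromorphicOrderAt f z := han.meromorphicOrderAt_nonneg
    have h1 : 0 ≤ (meromorphicOrderAt f z).untop₀ := by
      cases h : meromorphicOrderAt f z with
      | top => simp
      | coe n =>
        rw [h] at h0
        exact_mod_cast h0
    have h2 : max 0 (-(meromorphicOrderAt f z).untop₀) = 0 := by omega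
    rw [h2]
    simp
  unfold poleCount
  rw [finsum_mem_congr rfl key]
  simp

theorem characteristic_eq {f : ℂ → ℂ} (hf : DifferentiableOn ℂ f (Metric.ball 0 1)) {r : ℝ}
    (hr0 : 0 ≤ r) (hr : r < 1) : characteristic f r =
      (2 * π)⁻¹ * ∫ θ in (0:ℝ)..2 * π, max 0 (Real.log ‖f (circleMap 0 r θ)‖) := by
  unfold characteristic counting proximity
  rw [poleCount_eq hf zero_lt_one]
  have h : (∫ t in (0:ℝ)..r, (poleCount f t - 0) / t) = ∫ _ in (0:ℝ)..r, (0:ℝ) := by
    apply intervalIntegral.integral_congr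
    intro t ht
    rw [Set.uIcc_of_le hr0] at ht
    simp only
    rw [poleCount_eq hf (lt_of_le_of_lt ht.2 hr)]
    simp
  rw [h]
  simp [Real.posLog_def]

/-- There is a constant `c < 2` with `α(f) ≤ c` for all functions `f` holomorphic and zero-free in the
unit disc with `f' ≠ 1` there. -/
theorem result : ∃ c : ℝ, c < 2 ∧ ∀ f : ℂ → ℂ, DifferentiableOn ℂ f (Metric.ball 0 1) →
    (∀ z ∈ Metric.ball (0:ℂ) 1, f z ≠ 0) → (∀ z ∈ Metric.ball (0:ℂ) 1, deriv f z ≠ 1) →
    alpha f ≤ (c : EReal) := by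
  obtain ⟨η, hη0, hη1, hmain⟩ := Pool.Agent.SS.main
  refine ⟨2 - η, by linarith, fun f hd hn hn1 => ?_⟩
  have hf : Pool.Agent.SS.ClsD f := ⟨hd, hn, hn1⟩
  obtain ⟨τ₀, hτ₀, hτ₁, hm⟩ := hmain f hf
  have hlt : Real.exp (-τ₀) < 1 := Real.exp_lt_one_iff.2 (by linarith)
  have hev : ∀ᶠ r in 𝓝[<] (1:ℝ), Real.exp (-τ₀) < r ∧ r < 1 := Ioo_mem_nhdsLT hlt
  unfold alpha
  refine limsup_le_of_le (by isBoundedDefault) (hev.mono ?_)
  rintro r ⟨hr1, hr2⟩
  have hr0 : 0 < r := lt_trans (Real.exp_pos _) hr1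
  rw [EReal.coe_le_coe_iff, characteristic_eq hd hr0.le hr2]
  set τ : ℝ := -Real.log r with hτ
  have hτpos : 0 < τ := by
    have := Real.log_neg hr0 hr2
    linarith
  have hτlt : τ < τ₀ := by
    have := Real.log_lt_log (Real.exp_pos _) hr1
    rw [Real.log_exp] at this
    linarith
  have hexp : Real.exp (-τ) = r := by rw [hτ, neg_neg, Real.exp_log hr0]
  have h1 := hm τ hτpos hτlt
  have h2 : Pool.Agent.SS.mI (fun τ θ => max 0 (Real.log ‖f (Pool.Agent.SS.zz τ θ)‖)) τ =
      ∫ θ in (0:ℝ)..2 * π, max 0 (Real.log ‖f (circleMap 0 r θ)‖) := by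
    unfold Pool.Agent.SS.mI
    simp only [Pool.Agent.SSP.zz_eq_circleMap, hexp]
  rw [h2] at h1
  set T : ℝ := ∫ θ in (0:ℝ)..2 * π, max 0 (Real.log ‖f (circleMap 0 r θ)‖) with hT
  have h3 : 0 < -Real.log (1 - r) := by
    have := Real.log_neg (show 0 < 1 - r by linarith) (by linarith)
    linarith
  have h4 : -Real.log τ ≤ -Real.log (1 - r) := by
    have h5 : 1 - r ≤ τ := by
      have := Real.add_one_le_exp (-τ)
      rw [hexp] at this
      linarith
    have := Real.log_le_log (show 0 < 1 - r by linarith) h5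
    linarith
  rw [div_le_iff₀ h3]
  have hπ := Real.pi_pos
  have h6 : (2 * π)⁻¹ * T < (2 - η) * (-Real.log τ) := by
    rw [inv_mul_lt_iff₀ (by positivity)]
    linarith
  have h7 : (2 - η) * (-Real.log τ) ≤ (2 - η) * (-Real.log (1 - r)) :=
    mul_le_mul_of_nonneg_left h4 (by linarith)
  linarith

end Pool.Agent.Results.MP_a3030a_an.GrowthConstantBelowTwo
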